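import Mathlib

/-!
Fourier analysis of subset sums of the powers of `b` (helper file for MP_fcf9e8_nt).
-/

set_option autoImplicit false

open Finset

namespace Pool.Agent.R764.DR

/-! ### distance to the nearest integer and exponentials -/

/-- distance to the nearest integer -/
noncomputable def nd (x : ℝ) : ℝ := |x - round x|

theorem nd_nonneg (x : ℝ) : 0 ≤ nd x := abs_nonneg _

theorem nd_le_half (x : ℝ) : nd x ≤ 1 / 2 := abs_sub_round x

theorem nd_le (x : ℝ) (z : ℤ) : nd x ≤ |x - z| := round_le x z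

/-- `e(x) = exp(2πix)` -/
noncomputable def e (x : ℝ) : ℂ := Complex.exp (((2 * Real.pi * x : ℝ) : ℂ) * Complex.I)

theorem e_add (x y : ℝ) : e (x + y) = e x * e y := by
  unfold e
  rw [← Complex.exp_add]
  congr 1
  push_cast
  ring

theorem e_zero : e 0 = 1 := by simp [e]

theorem norm_e (x : ℝ) : ‖e x‖ = 1 := by
  unfold e
  exact Complex.norm_exp_ofReal_mul_I _

theorem e_int (z : ℤ) : e z = 1 := by
  unfold e
  rw [Complex.exp_eq_one_iff]
  exact ⟨z, by push_cast; ring⟩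

theorem e_nat (z : ℕ) : e z = 1 := by
  have := e_int z
  simpa using this

theorem e_sum {ι : Type} (s : Finset ι) (f : ι → ℝ) : e (∑ i ∈ s, f i) = ∏ i ∈ s, e (f i) := by
  classical
  induction s using Finset.induction_on with
  | empty => simp [e_zero]
  | insert a s ha ih => rw [Finset.sum_insert ha, Finset.prod_insert ha, e_add, ih]

theorem e_neg (x : ℝ) : e (-x) = (starRingEnd ℂ) (e x) := by
  unfold e
  rw [← Complex.exp_conj, map_mul, Complex.conj_ofReal, Complex.conj_I]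
  congr 1
  push_cast
  ring

theorem norm_one_add_e (x : ℝ) : ‖1 + e x‖ = 2 * Real.cos (Real.pi * nd x) := by
  have h1 : 1 + e x = e (x / 2) * ((2 * Real.cos (Real.pi * x) : ℝ) : ℂ) := by
    have : ((2 * Real.cos (Real.pi * x) : ℝ) : ℂ) = e (-(x / 2)) + e (x / 2) := by
      unfold e
      push_cast
      rw [Complex.two_cos]
      rw [add_comm]
      congr 1 <;> congr 1 <;> ring
    rw [this, mul_add, ← e_add, ← e_add]
    have a1 : x / 2 + -(x / 2) = 0 := by ring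
    have a2 : x / 2 + x / 2 = x := by ring
    rw [a1, a2, e_zero]
  rw [h1, norm_mul, norm_e, one_mul, Complex.norm_real, Real.norm_eq_abs, abs_mul, abs_two]
  congr 1
  have h2 : Real.pi * x = Real.pi * (x - round x) + (round x : ℤ) * Real.pi := by ring
  rw [h2, Real.cos_add_int_mul_pi, abs_mul, abs_zpow, abs_neg, abs_one, one_zpow, one_mul]
  have h3 : Real.cos (Real.pi * (x - round x)) = Real.cos (Real.pi * nd x) := by
    rw [nd, ← Real.cos_abs (Real.pi * (x - round x)), abs_mul, abs_of_pos Real.pi_pos]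
  rw [h3, abs_of_nonneg]
  apply Real.cos_nonneg_of_mem_Icc
  constructor
  · have := nd_nonneg x
    have := Real.pi_pos
    nlinarith
  · have := nd_le_half x
    have := Real.pi_pos
    nlinarith

theorem four_nd_le (x : ℝ) : 4 * nd x ≤ ‖e x - 1‖ := by
  have h1 : e x - 1 = e (x / 2) * (((2 * Real.sin (Real.pi * x) : ℝ) : ℂ) * Complex.I) := by
    have : ((2 * Real.sin (Real.pi * x) : ℝ) : ℂ) * Complex.I = e (x / 2) - e (-(x / 2)) := by
      unfold e
      push_cast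
      rw [Complex.two_sin]
      have a1 : Complex.exp (-(↑Real.pi * ↑x) * Complex.I) =
        Complex.exp (2 * ↑Real.pi * -(↑x / 2) * Complex.I) := by congr 1; ring
      have a2 : Complex.exp (↑Real.pi * ↑x * Complex.I) =
        Complex.exp (2 * ↑Real.pi * (↑x / 2) * Complex.I) := by congr 1; ring
      rw [a1, a2]
      have hI : Complex.I * Complex.I = -1 := Complex.I_mul_I
      linear_combination (Complex.exp (2 * ↑Real.pi * -(↑x / 2) * Complex.I)
        - Complex.exp (2 * ↑Real.pi * (↑x / 2) * Complex.I)) * hI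
    rw [this, mul_sub, ← e_add, ← e_add]
    have a1 : x / 2 + -(x / 2) = 0 := by ring
    have a2 : x / 2 + x / 2 = x := by ring
    rw [a1, a2, e_zero]
  rw [h1, norm_mul, norm_e, one_mul, norm_mul, Complex.norm_I, mul_one, Complex.norm_real,
    Real.norm_eq_abs, abs_mul, abs_two]
  have h2 : Real.pi * x = Real.pi * (x - round x) + (round x : ℤ) * Real.pi := by ring
  have h4 : |Real.sin (Real.pi * x)| = Real.sin (Real.pi * nd x) := by
    rw [h2, Real.sin_add_int_mul_pi, abs_mul, abs_zpow, abs_neg, abs_one, one_zpow, one_mul]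
    rcases le_total 0 (x - round x) with h | h
    · rw [nd, abs_of_nonneg h, abs_of_nonneg]
      apply Real.sin_nonneg_of_nonneg_of_le_pi
      · exact mul_nonneg Real.pi_pos.le h
      · have := nd_le_half x
        rw [nd, abs_of_nonneg h] at this
        have := Real.pi_pos
        nlinarith
    · rw [nd, abs_of_nonpos h]
      have e1 : Real.pi * -(x - round x) = -(Real.pi * (x - round x)) := by ring
      rw [e1, Real.sin_neg, abs_of_nonpos]
      apply Real.sin_nonpos_of_nonpos_of_neg_pi_le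
      · have := Real.pi_pos
        nlinarith
      · have := nd_le_half x
        rw [nd, abs_of_nonpos h] at this
        have := Real.pi_pos
        nlinarith
  rw [h4]
  have h5 := Real.mul_le_sin (x := Real.pi * nd x)
    (mul_nonneg Real.pi_pos.le (nd_nonneg x))
    (by have := nd_le_half x; have := Real.pi_pos; nlinarith)
  have h6 : 2 / Real.pi * (Real.pi * nd x) = 2 * nd x := by
    field_simp
  rw [h6] at h5
  linarith

/-- Dirichlet kernel -/
noncomputable def D (H : ℕ) (x : ℝ) : ℂ := ∑ j ∈ range H, e (j * x)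

theorem e_nat_mul (j : ℕ) (x : ℝ) : e (j * x) = e x ^ j := by
  induction j with
  | zero => simp [e_zero]
  | succ n ih =>
    rw [pow_succ, ← ih, ← e_add]
    congr 1
    push_cast
    ring

theorem D_mul (H : ℕ) (x : ℝ) : D H x * (e x - 1) = e (H * x) - 1 := by
  unfold D
  simp only [e_nat_mul]
  exact geom_sum_mul (e x) H

theorem norm_D_mul (H : ℕ) (x : ℝ) : ‖D H x‖ * (2 * nd x) ≤ 1 := by
  have h1 : ‖D H x‖ * ‖e x - 1‖ ≤ 2 := by
    rw [← norm_mul, D_mul]
    calc ‖e (H * x) - 1‖ ≤ ‖e (H * x)‖ + ‖(1 : ℂ)‖ := norm_sub_le _ _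
      _ = 2 := by rw [norm_e, norm_one]; norm_num
  have h2 := four_nd_le x
  have h3 := mul_le_mul_of_nonneg_left h2 (norm_nonneg (D H x))
  nlinarith [norm_nonneg (D H x)]

/-! ### averages over subset sums -/

/-- subset sums of the powers of `b` -/
def R (b : ℕ) (S : Finset ℕ) : ℕ := ∑ k ∈ S, b ^ k

/-- product of `1 + e(b^k θ)` -/
noncomputable def G (b K : ℕ) (θ : ℝ) : ℂ := ∏ k ∈ range K, (1 + e ((b : ℝ) ^ k * θ))

theorem G_zero (b K : ℕ) : G b K 0 = 2 ^ K := by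
  unfold G
  simp only [mul_zero, e_zero]
  rw [Finset.prod_const, Finset.card_range]
  norm_num

theorem norm_G_neg (b K : ℕ) (θ : ℝ) : ‖G b K (-θ)‖ = ‖G b K θ‖ := by
  unfold G
  rw [norm_prod, norm_prod]
  refine Finset.prod_congr rfl fun k _ => ?_
  have h : (b : ℝ) ^ k * -θ = -((b : ℝ) ^ k * θ) := by ring
  rw [h, e_neg]
  have h2 : (1 : ℂ) + (starRingEnd ℂ) (e ((b : ℝ) ^ k * θ))
      = (starRingEnd ℂ) (1 + e ((b : ℝ) ^ k * θ)) := by simp
  rw [h2]
  exact RCLike.norm_conj _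

theorem G_expand (b K : ℕ) (θ : ℝ) :
    G b K θ = ∑ S ∈ (range K).powerset, e ((R b S : ℝ) * θ) := by
  unfold G
  rw [Finset.prod_one_add]
  refine Finset.sum_congr rfl fun S _ => ?_
  rw [← e_sum]
  congr 1
  unfold R
  push_cast
  rw [Finset.sum_mul]

theorem normSq_D (H : ℕ) (x : ℝ) :
    ((‖D H x‖ ^ 2 : ℝ) : ℂ) = ∑ i ∈ range H, ∑ j ∈ range H, e (((i : ℝ) - j) * x) := by
  have h1 : ((‖D H x‖ ^ 2 : ℝ) : ℂ) = D H x * (starRingEnd ℂ) (D H x) := by
    rw [Complex.mul_conj, Complex.normSq_eq_norm_sq]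
  rw [h1]
  unfold D
  rw [map_sum, Finset.sum_mul_sum]
  refine Finset.sum_congr rfl fun i _ => Finset.sum_congr rfl fun j _ => ?_
  rw [← e_neg, ← e_add]
  congr 1
  ring

theorem sum_normSq_D (b K H : ℕ) (γ : ℝ) :
    ((∑ S ∈ (range K).powerset, ‖D H ((R b S : ℝ) * γ)‖ ^ 2 : ℝ) : ℂ)
      = ∑ i ∈ range H, ∑ j ∈ range H, G b K (((i : ℝ) - j) * γ) := by
  rw [Complex.ofReal_sum]
  simp only [normSq_D, G_expand]
  rw [Finset.sum_comm]
  refine Finset.sum_congr rfl fun i _ => ?_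
  rw [Finset.sum_comm]
  refine Finset.sum_congr rfl fun j _ => Finset.sum_congr rfl fun S _ => ?_
  congr 1
  ring

/-- If the Fourier transform is small in mean, some nonempty subset sum has a large kernel. -/
theorem exists_large (b K H : ℕ) (γ : ℝ) (hH : 1 ≤ H) (hHK : 4 * H ≤ 2 ^ K)
    (hE : ∑ h ∈ Ico 1 H, ‖G b K (h * γ)‖ ≤ 2 ^ K / 4) :
    ∃ S ∈ (range K).powerset, S.Nonempty ∧ (H : ℝ) / 4 ≤ ‖D H ((R b S : ℝ) * γ)‖ ^ 2 := by
  by_contra hcon
  push Not at hcon
  have hrow : ∀ i ∈ range H, ‖∑ j ∈ range H, G b K (((i : ℝ) - j) * γ) - 2 ^ K‖ ≤ 2 ^ K / 2 := by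
    intro i hi
    have hi' := mem_range.mp hi
    have e1 : ∑ j ∈ range H, G b K (((i : ℝ) - j) * γ) - 2 ^ K
        = ∑ j ∈ (range H).erase i, G b K (((i : ℝ) - j) * γ) := by
      rw [← Finset.add_sum_erase (range H) _ hi]
      rw [sub_self, zero_mul, G_zero]
      ring
    rw [e1]
    refine (norm_sum_le _ _).trans ?_
    have e2 : (range H).erase i = (range i) ∪ (Ico (i + 1) H) := by
      ext j
      simp only [mem_erase, mem_range, mem_union, mem_Ico]
      omega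
    rw [e2, Finset.sum_union]
    · have s1 : ∑ j ∈ range i, ‖G b K (((i : ℝ) - j) * γ)‖ ≤ ∑ h ∈ Ico 1 H, ‖G b K (h * γ)‖ := by
        have : ∑ j ∈ range i, ‖G b K (((i : ℝ) - j) * γ)‖
            = ∑ h ∈ Ico 1 (i + 1), ‖G b K (h * γ)‖ := by
          refine Finset.sum_bij' (fun j _ => i - j) (fun h _ => i - h) ?_ ?_ ?_ ?_ ?_
          · intro j hj; rw [mem_range] at hj; rw [mem_Ico]; omega
          · intro j hj; rw [mem_Ico] at hj; rw [mem_range]; omega
          · intro j hj; rw [mem_range] at hj; omega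
          · intro j hj; rw [mem_Ico] at hj; omega
          · intro j hj
            rw [mem_range] at hj
            rw [Nat.cast_sub hj.le]
        rw [this]
        apply Finset.sum_le_sum_of_subset_of_nonneg
        · intro h hh; rw [mem_Ico] at hh ⊢; omega
        · intros; exact norm_nonneg _
      have s2 : ∑ j ∈ Ico (i + 1) H, ‖G b K (((i : ℝ) - j) * γ)‖
          ≤ ∑ h ∈ Ico 1 H, ‖G b K (h * γ)‖ := by
        have : ∑ j ∈ Ico (i + 1) H, ‖G b K (((i : ℝ) - j) * γ)‖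
            = ∑ h ∈ Ico 1 (H - i), ‖G b K (h * γ)‖ := by
          refine Finset.sum_bij' (fun j _ => j - i) (fun h _ => h + i) ?_ ?_ ?_ ?_ ?_
          · intro j hj; rw [mem_Ico] at hj ⊢; omega
          · intro j hj; rw [mem_Ico] at hj ⊢; omega
          · intro j hj; rw [mem_Ico] at hj; omega
          · intro j hj; rw [mem_Ico] at hj; omega
          · intro j hj
            rw [mem_Ico] at hj
            rw [Nat.cast_sub (by omega), ← norm_G_neg]
            congr 2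
            ring
        rw [this]
        apply Finset.sum_le_sum_of_subset_of_nonneg
        · intro h hh; rw [mem_Ico] at hh ⊢; omega
        · intros; exact norm_nonneg _
      linarith
    · rw [Finset.disjoint_left]
      intro j hj hj'
      rw [mem_range] at hj
      rw [mem_Ico] at hj'
      omega
  have htot : ‖((∑ S ∈ (range K).powerset, ‖D H ((R b S : ℝ) * γ)‖ ^ 2 : ℝ) : ℂ)
      - (H : ℂ) * 2 ^ K‖ ≤ H * (2 ^ K / 2) := by
    rw [sum_normSq_D]
    have : ∑ i ∈ range H, ∑ j ∈ range H, G b K (((i : ℝ) - j) * γ) - (H : ℂ) * 2 ^ K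
        = ∑ i ∈ range H, (∑ j ∈ range H, G b K (((i : ℝ) - j) * γ) - 2 ^ K) := by
      rw [Finset.sum_sub_distrib]
      simp
    rw [this]
    refine (norm_sum_le _ _).trans ?_
    calc ∑ i ∈ range H, ‖∑ j ∈ range H, G b K (((i : ℝ) - j) * γ) - 2 ^ K‖
        ≤ ∑ i ∈ range H, (2 : ℝ) ^ K / 2 := Finset.sum_le_sum hrow
      _ = H * (2 ^ K / 2) := by rw [Finset.sum_const, card_range, nsmul_eq_mul]
  have hreal : (H : ℝ) * 2 ^ K / 2 ≤ ∑ S ∈ (range K).powerset, ‖D H ((R b S : ℝ) * γ)‖ ^ 2 := by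
    have h1 : ((∑ S ∈ (range K).powerset, ‖D H ((R b S : ℝ) * γ)‖ ^ 2 : ℝ) : ℂ)
      - (H : ℂ) * 2 ^ K = (((∑ S ∈ (range K).powerset, ‖D H ((R b S : ℝ) * γ)‖ ^ 2)
        - (H : ℝ) * 2 ^ K : ℝ) : ℂ) := by push_cast; ring
    rw [h1, Complex.norm_real, Real.norm_eq_abs, abs_le] at htot
    have := htot.1
    linarith
  -- upper bound
  have hempty : (∅ : Finset ℕ) ∈ (range K).powerset := Finset.empty_mem_powerset _
  rw [← Finset.add_sum_erase _ _ hempty] at hreal
  have hD0 : ‖D H ((R b ∅ : ℝ) * γ)‖ ^ 2 = (H : ℝ) ^ 2 := by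
    have : D H ((R b ∅ : ℝ) * γ) = (H : ℂ) := by
      unfold D R
      simp [e_zero]
    rw [this]
    simp
  rw [hD0] at hreal
  have hrest : ∑ S ∈ (range K).powerset.erase ∅, ‖D H ((R b S : ℝ) * γ)‖ ^ 2
      ≤ (2 ^ K - 1) * ((H : ℝ) / 4) := by
    have : ((range K).powerset.erase ∅).card = 2 ^ K - 1 := by
      rw [Finset.card_erase_of_mem hempty, Finset.card_powerset, card_range]
    calc ∑ S ∈ (range K).powerset.erase ∅, ‖D H ((R b S : ℝ) * γ)‖ ^ 2
        ≤ ∑ S ∈ (range K).powerset.erase ∅, (H : ℝ) / 4 := by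
          refine Finset.sum_le_sum fun S hS => ?_
          rw [mem_erase] at hS
          exact (hcon S hS.2 (Finset.nonempty_iff_ne_empty.mpr hS.1)).le
      _ = (2 ^ K - 1) * ((H : ℝ) / 4) := by
          rw [Finset.sum_const, this, nsmul_eq_mul, Nat.cast_sub Nat.one_le_two_pow]
          push_cast
          ring
  have hH0 : (1 : ℝ) ≤ H := by exact_mod_cast hH
  have hHK' : 4 * (H : ℝ) ≤ 2 ^ K := by exact_mod_cast hHK
  nlinarith

/-! ### digit codes -/

/-- signed distance to the nearest integer of `b^k θ` -/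
noncomputable def y (b : ℕ) (θ : ℝ) (k : ℕ) : ℝ := (b : ℝ) ^ k * θ - round ((b : ℝ) ^ k * θ)

/-- signed digit -/
noncomputable def ec (b : ℕ) (θ : ℝ) (k : ℕ) : ℤ := round ((b : ℝ) * y b θ k)

theorem abs_y (b : ℕ) (θ : ℝ) (k : ℕ) : |y b θ k| = nd ((b : ℝ) ^ k * θ) := rfl

theorem y_succ (b : ℕ) (θ : ℝ) (k : ℕ) : y b θ (k + 1) = b * y b θ k - ec b θ k := by
  have h1 : (b : ℝ) ^ (k + 1) * θ = (b : ℝ) * y b θ k + ((b * round ((b : ℝ) ^ k * θ) : ℤ) : ℝ) := by
    unfold y; push_cast; ring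
  unfold ec
  rw [y, h1, round_add_intCast]
  push_cast
  ring

theorem abs_ec_le (b : ℕ) (hb : 1 ≤ b) (θ : ℝ) (k : ℕ) : |ec b θ k| ≤ b := by
  have h1 : |(ec b θ k : ℝ)| ≤ b := by
    have h2 := abs_sub_round ((b : ℝ) * y b θ k)
    have h3 : |(b : ℝ) * y b θ k| ≤ b / 2 := by
      rw [abs_mul, abs_y, abs_of_nonneg (Nat.cast_nonneg b)]
      have := nd_le_half ((b : ℝ) ^ k * θ)
      have hb0 : (0 : ℝ) ≤ b := Nat.cast_nonneg b
      nlinarith
    have h4 : |(ec b θ k : ℝ)| ≤ |(b : ℝ) * y b θ k| + |(b : ℝ) * y b θ k - round ((b : ℝ) * y b θ k)| := by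
      have : (ec b θ k : ℝ) = (b : ℝ) * y b θ k - ((b : ℝ) * y b θ k - round ((b : ℝ) * y b θ k)) := by
        unfold ec; ring
      rw [this]
      exact abs_sub _ _
    have hb1 : (1 : ℝ) ≤ b := by exact_mod_cast hb
    linarith
  have h5 : ((|ec b θ k| : ℤ) : ℝ) ≤ ((b : ℤ) : ℝ) := by
    push_cast
    exact h1
  exact_mod_cast h5

theorem half_le_of_ec (b : ℕ) (θ : ℝ) (k : ℕ) (h : ec b θ k ≠ 0) :
    1 / 2 ≤ (b : ℝ) * nd ((b : ℝ) ^ k * θ) := by
  by_contra hcon
  push Not at hcon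
  apply h
  unfold ec
  have h1 : |(b : ℝ) * y b θ k| < 1 / 2 := by
    rw [abs_mul, abs_y, abs_of_nonneg (Nat.cast_nonneg b)]
    exact hcon
  rw [abs_lt] at h1
  rw [round_eq_zero_iff]
  constructor
  · linarith [h1.1]
  · linarith [h1.2]

theorem code_diff (b : ℕ) (θ θ' : ℝ) (M : ℕ) (h : ∀ k < M, ec b θ k = ec b θ' k) :
    y b θ M - y b θ' M = (b : ℝ) ^ M * (y b θ 0 - y b θ' 0) := by
  induction M with
  | zero => simp
  | succ n ih =>
    have h1 := ih fun k hk => h k (by omega)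
    rw [y_succ, y_succ, h n (by omega), pow_succ]
    linear_combination (b : ℝ) * h1

theorem code_inj (b : ℕ) (θ θ' : ℝ) (M : ℕ) (h : ∀ k < M, ec b θ k = ec b θ' k) :
    nd (θ - θ') * (b : ℝ) ^ M ≤ 1 := by
  have h1 := code_diff b θ θ' M h
  have h2 : nd (θ - θ') ≤ |y b θ 0 - y b θ' 0| := by
    have := nd_le (θ - θ') (round ((b : ℝ) ^ 0 * θ) - round ((b : ℝ) ^ 0 * θ'))
    refine this.trans (le_of_eq ?_)
    congr 1
    unfold y
    push_cast
    simp
    ring
  have h3 : |y b θ M - y b θ' M| ≤ 1 := by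
    have a1 : |y b θ M| ≤ 1 / 2 := nd_le_half _
    have a2 : |y b θ' M| ≤ 1 / 2 := nd_le_half _
    calc |y b θ M - y b θ' M| ≤ |y b θ M| + |y b θ' M| := abs_sub _ _
      _ ≤ 1 := by linarith
  rw [h1, abs_mul, abs_of_nonneg (by positivity)] at h3
  calc nd (θ - θ') * (b : ℝ) ^ M ≤ |y b θ 0 - y b θ' 0| * (b : ℝ) ^ M :=
        mul_le_mul_of_nonneg_right h2 (by positivity)
    _ ≤ 1 := by linarith

theorem code_zero (b : ℕ) (θ : ℝ) (M : ℕ) (h : ∀ k < M, ec b θ k = 0) :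
    nd θ * (b : ℝ) ^ M ≤ 1 := by
  have h1 := code_inj b θ 0 M (fun k hk => by
    rw [h k hk]
    unfold ec y
    simp)
  rwa [sub_zero] at h1

/-- number of nontrivial digits -/
noncomputable def tn (b M : ℕ) (θ : ℝ) : ℕ := ((range M).filter fun k => ec b θ k ≠ 0).card

/-- the contraction factor -/
noncomputable def rho (b : ℕ) : ℝ := Real.cos (Real.pi / (2 * b))

theorem rho_nonneg (b : ℕ) (hb : 1 ≤ b) : 0 ≤ rho b := by
  unfold rho
  apply Real.cos_nonneg_of_mem_Icc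
  have hb1 : (1 : ℝ) ≤ b := by exact_mod_cast hb
  have hp := Real.pi_pos
  constructor
  · have : 0 ≤ Real.pi / (2 * b) := by positivity
    linarith
  · rw [div_le_div_iff₀ (by positivity) (by norm_num)]
    nlinarith

theorem rho_lt_one (b : ℕ) (hb : 1 ≤ b) : rho b < 1 := by
  unfold rho
  have hb1 : (1 : ℝ) ≤ b := by exact_mod_cast hb
  have hp := Real.pi_pos
  have h1 : 0 < Real.pi / (2 * b) := by positivity
  have h2 : Real.pi / (2 * b) ≤ Real.pi := by
    rw [div_le_iff₀ (by positivity)]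
    nlinarith
  rw [← Real.cos_zero]
  exact Real.cos_lt_cos_of_nonneg_of_le_pi le_rfl h2 h1

theorem norm_one_add_e_le (b : ℕ) (hb : 1 ≤ b) (θ : ℝ) (k : ℕ) :
    ‖1 + e ((b : ℝ) ^ k * θ)‖ ≤ 2 * (if ec b θ k ≠ 0 then rho b else 1) := by
  rw [norm_one_add_e]
  apply mul_le_mul_of_nonneg_left _ (by norm_num)
  split_ifs with h
  · unfold rho
    have h1 := half_le_of_ec b θ k h
    have hb1 : (1 : ℝ) ≤ b := by exact_mod_cast hb
    have hp := Real.pi_pos
    apply Real.cos_le_cos_of_nonneg_of_le_pi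
    · positivity
    · have := nd_le_half ((b : ℝ) ^ k * θ)
      nlinarith
    · rw [div_le_iff₀ (by positivity)]
      nlinarith
  · exact Real.cos_le_one _

theorem norm_G_le (b : ℕ) (hb : 1 ≤ b) (M : ℕ) (θ : ℝ) :
    ‖G b M θ‖ ≤ 2 ^ M * rho b ^ tn b M θ := by
  unfold G tn
  rw [norm_prod]
  calc ∏ k ∈ range M, ‖1 + e ((b : ℝ) ^ k * θ)‖
      ≤ ∏ k ∈ range M, 2 * (if ec b θ k ≠ 0 then rho b else 1) :=
        Finset.prod_le_prod (fun _ _ => norm_nonneg _) fun k _ => norm_one_add_e_le b hb θ k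
    _ = 2 ^ M * rho b ^ ((range M).filter fun k => ec b θ k ≠ 0).card := by
        rw [Finset.prod_mul_distrib, Finset.prod_const, card_range]
        congr 1
        rw [Finset.prod_ite, Finset.prod_const, Finset.prod_const_one, mul_one]

theorem G_add (b K M : ℕ) (θ : ℝ) : G b (K + M) θ = G b K θ * G b M ((b : ℝ) ^ K * θ) := by
  unfold G
  rw [Finset.prod_range_add]
  congr 1
  refine Finset.prod_congr rfl fun k _ => ?_
  congr 2
  ring

theorem norm_G_windows (b : ℕ) (hb : 1 ≤ b) (M B : ℕ) (θ : ℝ) :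
    ‖G b (B * M) θ‖ ≤ 2 ^ (B * M) * rho b ^ (∑ j ∈ range B, tn b M ((b : ℝ) ^ (j * M) * θ)) := by
  induction B with
  | zero => simp [G]
  | succ n ih =>
    rw [Nat.succ_mul, G_add, norm_mul, Finset.sum_range_succ, pow_add, pow_add]
    have h1 := norm_G_le b hb M ((b : ℝ) ^ (n * M) * θ)
    have h2 := rho_nonneg b hb
    calc ‖G b (n * M) θ‖ * ‖G b M ((b : ℝ) ^ (n * M) * θ)‖
        ≤ (2 ^ (n * M) * rho b ^ (∑ j ∈ range n, tn b M ((b : ℝ) ^ (j * M) * θ)))
          * (2 ^ M * rho b ^ tn b M ((b : ℝ) ^ (n * M) * θ)) :=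
          mul_le_mul ih h1 (norm_nonneg _) (by positivity)
      _ = _ := by ring

theorem rho_pow_sum_le (b : ℕ) (hb : 1 ≤ b) (B : ℕ) (hB : 1 ≤ B) (t : ℕ → ℕ) :
    rho b ^ (∑ j ∈ range B, t j) ≤ ∑ j ∈ range B, rho b ^ (B * t j) := by
  have h0 := rho_nonneg b hb
  have h1 := (rho_lt_one b hb).le
  obtain ⟨j, hj, hmin⟩ := Finset.exists_min_image (range B) t ⟨0, mem_range.mpr (by omega)⟩
  have h2 : B * t j ≤ ∑ i ∈ range B, t i := by
    have := Finset.card_nsmul_le_sum (range B) t (t j) hmin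
    simpa using this
  calc rho b ^ (∑ i ∈ range B, t i) ≤ rho b ^ (B * t j) := pow_le_pow_of_le_one h0 h1 h2
    _ ≤ ∑ j ∈ range B, rho b ^ (B * t j) :=
      Finset.single_le_sum (f := fun j => rho b ^ (B * t j)) (fun _ _ => by positivity) hj

/-- The count of codes, weighted. -/
theorem weight_sum (b : ℕ) (hb : 1 ≤ b) (M B : ℕ) (Θ : Finset ℕ) (θ : ℕ → ℝ)
    (h1 : ∀ i ∈ Θ, ∀ i' ∈ Θ, i ≠ i' → 1 < nd (θ i - θ i') * (b : ℝ) ^ M)
    (h0 : ∀ i ∈ Θ, 1 < nd (θ i) * (b : ℝ) ^ M) :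
    ∑ i ∈ Θ, rho b ^ (B * tn b M (θ i)) ≤ (1 + 2 * b * rho b ^ B) ^ M - 1 := by
  classical
  have hr := rho_nonneg b hb
  set w : ℤ → ℝ := fun z => if z ≠ 0 then rho b ^ B else 1 with hw
  have hw0 : ∀ z, 0 ≤ w z := by
    intro z; simp only [hw]; split_ifs <;> positivity
  set code : ℕ → (Fin M → ℤ) := fun i k => ec b (θ i) k with hcode
  have hterm : ∀ i, rho b ^ (B * tn b M (θ i)) = ∏ k : Fin M, w (code i k) := by
    intro i
    simp only [hw, hcode]
    rw [Fin.prod_univ_eq_prod_range (fun k => if ec b (θ i) k ≠ 0 then rho b ^ B else 1) M,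
      Finset.prod_ite, Finset.prod_const, Finset.prod_const_one, mul_one, pow_mul]
    rfl
  have hinj : ∀ i ∈ Θ, ∀ i' ∈ Θ, code i = code i' → i = i' := by
    intro i hi i' hi' h
    by_contra hne
    have := h1 i hi i' hi' hne
    have h2 := code_inj b (θ i) (θ i') M (fun k hk => congrFun h ⟨k, hk⟩)
    linarith
  have hsum : ∑ i ∈ Θ, rho b ^ (B * tn b M (θ i)) = ∑ c ∈ Θ.image code, ∏ k, w (c k) := by
    rw [Finset.sum_image hinj]
    exact Finset.sum_congr rfl fun i _ => hterm i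
  rw [hsum]
  set T : Finset (Fin M → ℤ) := Fintype.piFinset fun _ : Fin M => Finset.Icc (-(b : ℤ)) b with hT
  have hsub : Θ.image code ⊆ T.erase 0 := by
    intro c hc
    rw [Finset.mem_image] at hc
    obtain ⟨i, hi, rfl⟩ := hc
    rw [Finset.mem_erase]
    constructor
    · intro h
      have h2 := code_zero b (θ i) M (fun k hk => congrFun h ⟨k, hk⟩)
      have := h0 i hi
      linarith
    · rw [hT, Fintype.mem_piFinset]
      intro k
      rw [Finset.mem_Icc]
      exact abs_le.mp (abs_ec_le b hb (θ i) k)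
  have h2 : ∑ c ∈ Θ.image code, ∏ k, w (c k) ≤ ∑ c ∈ T.erase 0, ∏ k, w (c k) :=
    Finset.sum_le_sum_of_subset_of_nonneg hsub fun c _ _ => Finset.prod_nonneg fun k _ => hw0 _
  refine h2.trans (le_of_eq ?_)
  have h0T : (0 : Fin M → ℤ) ∈ T := by
    rw [hT, Fintype.mem_piFinset]
    intro k
    simp
  have h3 := Finset.add_sum_erase T (fun c => ∏ k, w (c k)) h0T
  have h4 : ∏ k : Fin M, w ((0 : Fin M → ℤ) k) = 1 := by
    simp [hw]
  have h5 : ∑ c ∈ T, ∏ k, w (c k) = (1 + 2 * b * rho b ^ B) ^ M := by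
    rw [hT, ← Finset.prod_univ_sum (fun _ : Fin M => Finset.Icc (-(b : ℤ)) b) (fun _ z => w z)]
    rw [Finset.prod_const, Finset.card_univ, Fintype.card_fin]
    congr 1
    have h6 : (0 : ℤ) ∈ Finset.Icc (-(b : ℤ)) b := by simp
    have hw00 : w 0 = 1 := by simp [hw]
    rw [← Finset.add_sum_erase _ _ h6, hw00]
    have h7 : ∀ z ∈ (Finset.Icc (-(b : ℤ)) b).erase 0, w z = rho b ^ B := by
      intro z hz
      simp only [hw]
      rw [if_pos (Finset.ne_of_mem_erase hz)]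
    rw [Finset.sum_congr rfl h7, Finset.sum_const, Finset.card_erase_of_mem h6, Int.card_Icc,
      nsmul_eq_mul]
    have h8 : ((b : ℤ) + 1 - -(b : ℤ)).toNat - 1 = 2 * b := by omega
    rw [h8]
    push_cast
    ring
  rw [h5] at h3
  rw [h4] at h3
  linarith

theorem one_add_pow_le (x : ℝ) (hx : 0 ≤ x) (M : ℕ) (hM : M * x ≤ 1 / 2) :
    (1 + x) ^ M ≤ 1 + 2 * M * x := by
  induction M with
  | zero => simp
  | succ n ih =>
    push_cast at hM ⊢
    have hn : (n : ℝ) * x ≤ 1 / 2 := by nlinarith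
    have h1 := ih hn
    rw [pow_succ]
    calc (1 + x) ^ n * (1 + x) ≤ (1 + 2 * n * x) * (1 + x) :=
          mul_le_mul_of_nonneg_right h1 (by linarith)
      _ ≤ 1 + 2 * (n + 1) * x := by nlinarith [mul_nonneg hx hx]

/-- the Fourier sum over good frequencies -/
theorem fourier_small (b : ℕ) (hb : 1 ≤ b) (M B H : ℕ) (hB : 1 ≤ B) (γ : ℝ)
    (hgood : ∀ j < B, ∀ h : ℕ, 0 < h → h < H →
      1 < nd ((b : ℝ) ^ (j * M) * (h * γ)) * (b : ℝ) ^ M)
    (hpar : 16 * b * B * M * rho b ^ B ≤ 1) :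
    ∑ h ∈ Ico 1 H, ‖G b (B * M) (h * γ)‖ ≤ 2 ^ (B * M) / 4 := by
  have hr := rho_nonneg b hb
  have hb1 : (1 : ℝ) ≤ b := by exact_mod_cast hb
  have hB1 : (1 : ℝ) ≤ B := by exact_mod_cast hB
  have step1 : ∑ h ∈ Ico 1 H, ‖G b (B * M) (h * γ)‖ ≤
      2 ^ (B * M) * ∑ j ∈ range B, ∑ h ∈ Ico 1 H,
        rho b ^ (B * tn b M ((b : ℝ) ^ (j * M) * (h * γ))) := by
    rw [Finset.sum_comm, Finset.mul_sum]
    refine Finset.sum_le_sum fun h _ => ?_
    refine (norm_G_windows b hb M B (h * γ)).trans ?_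
    exact mul_le_mul_of_nonneg_left (rho_pow_sum_le b hb B hB _) (by positivity)
  have step2 : ∀ j ∈ range B, ∑ h ∈ Ico 1 H,
      rho b ^ (B * tn b M ((b : ℝ) ^ (j * M) * (h * γ))) ≤ (1 + 2 * b * rho b ^ B) ^ M - 1 := by
    intro j hj
    rw [mem_range] at hj
    apply weight_sum b hb M B (Ico 1 H) (fun h => (b : ℝ) ^ (j * M) * (h * γ))
    · intro i hi i' hi' hne
      rw [mem_Ico] at hi hi'
      rcases lt_or_gt_of_ne hne with hlt | hlt
      · have := hgood j hj (i' - i) (by omega) (by omega)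
        rw [Nat.cast_sub hlt.le] at this
        have e1 : (b : ℝ) ^ (j * M) * (i * γ) - (b : ℝ) ^ (j * M) * (i' * γ)
            = -((b : ℝ) ^ (j * M) * (((i' : ℝ) - i) * γ)) := by ring
        have e2 : ∀ x, nd (-x) = nd x := by
          intro x
          apply le_antisymm
          · have := nd_le (-x) (-(round x))
            refine this.trans (le_of_eq ?_)
            rw [nd, ← abs_neg]; congr 1; push_cast; ring
          · have := nd_le x (-(round (-x)))
            refine this.trans (le_of_eq ?_)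
            rw [nd, ← abs_neg]; congr 1; push_cast; ring
        rw [e1, e2]
        exact this
      · have := hgood j hj (i - i') (by omega) (by omega)
        rw [Nat.cast_sub hlt.le] at this
        have e1 : (b : ℝ) ^ (j * M) * (i * γ) - (b : ℝ) ^ (j * M) * (i' * γ)
            = (b : ℝ) ^ (j * M) * (((i : ℝ) - i') * γ) := by ring
        rw [e1]
        exact this
    · intro i hi
      rw [mem_Ico] at hi
      exact hgood j hj i (by omega) hi.2
  have hMx : (M : ℝ) * (2 * b * rho b ^ B) ≤ 1 / 2 := by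
    have h1 : (0 : ℝ) ≤ 2 * b * M * rho b ^ B := by positivity
    have h2 : 2 * b * M * rho b ^ B * 1 ≤ 2 * b * M * rho b ^ B * B :=
      mul_le_mul_of_nonneg_left hB1 h1
    nlinarith
  have step3 := one_add_pow_le (2 * b * rho b ^ B) (by positivity) M hMx
  have step4 : ∑ j ∈ range B, ∑ h ∈ Ico 1 H,
        rho b ^ (B * tn b M ((b : ℝ) ^ (j * M) * (h * γ))) ≤ 1 / 4 := by
    calc ∑ j ∈ range B, ∑ h ∈ Ico 1 H,
        rho b ^ (B * tn b M ((b : ℝ) ^ (j * M) * (h * γ)))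
        ≤ ∑ j ∈ range B, ((1 + 2 * b * rho b ^ B) ^ M - 1) := Finset.sum_le_sum step2
      _ = B * ((1 + 2 * b * rho b ^ B) ^ M - 1) := by
          rw [Finset.sum_const, card_range, nsmul_eq_mul]
      _ ≤ B * (2 * M * (2 * b * rho b ^ B)) :=
          mul_le_mul_of_nonneg_left (by linarith) (by positivity)
      _ ≤ 1 / 4 := by nlinarith
  calc ∑ h ∈ Ico 1 H, ‖G b (B * M) (h * γ)‖ ≤ _ := step1
    _ ≤ 2 ^ (B * M) * (1 / 4) := mul_le_mul_of_nonneg_left step4 (by positivity)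
    _ = 2 ^ (B * M) / 4 := by ring

/-- Good case: approximation by a nonempty subset sum. -/
theorem good_case (b : ℕ) (hb : 1 ≤ b) (M B H : ℕ) (hB : 1 ≤ B) (hH : 1 ≤ H) (γ : ℝ)
    (hgood : ∀ j < B, ∀ h : ℕ, 0 < h → h < H →
      1 < nd ((b : ℝ) ^ (j * M) * (h * γ)) * (b : ℝ) ^ M)
    (hpar : 16 * b * B * M * rho b ^ B ≤ 1) (hHK : 4 * H ≤ 2 ^ (B * M)) :
    ∃ S ∈ (range (B * M)).powerset, S.Nonempty ∧ nd ((R b S : ℝ) * γ) ^ 2 * H ≤ 1 := by
  obtain ⟨S, hS, hne, hlarge⟩ := exists_large b (B * M) H γ hH hHK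
    (fourier_small b hb M B H hB γ hgood hpar)
  refine ⟨S, hS, hne, ?_⟩
  have h1 := norm_D_mul H ((R b S : ℝ) * γ)
  have h2 : (‖D H ((R b S : ℝ) * γ)‖ * (2 * nd ((R b S : ℝ) * γ))) ^ 2 ≤ 1 := by
    have h0 : 0 ≤ ‖D H ((R b S : ℝ) * γ)‖ * (2 * nd ((R b S : ℝ) * γ)) :=
      mul_nonneg (norm_nonneg _) (mul_nonneg (by norm_num) (nd_nonneg _))
    nlinarith
  have h3 := mul_le_mul_of_nonneg_right hlarge (sq_nonneg (2 * nd ((R b S : ℝ) * γ)))
  nlinarith

theorem nd_div (a q : ℕ) (hq : 0 < q) (h : ¬ q ∣ a) : 1 ≤ nd ((a : ℝ) / q) * q := by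
  have hq' : (0 : ℝ) < q := by exact_mod_cast hq
  unfold nd
  have h1 : |(a : ℝ) / q - round ((a : ℝ) / q)| * q = |(((a : ℤ) - round ((a : ℝ) / q) * q : ℤ) : ℝ)| := by
    have h0 : |(a : ℝ) / q - round ((a : ℝ) / q)| * q
        = |((a : ℝ) / q - round ((a : ℝ) / q)) * q| := by
      rw [abs_mul, abs_of_pos hq']
    rw [h0]
    congr 1
    push_cast
    field_simp
  rw [h1]
  have h2 : (1 : ℤ) ≤ |(a : ℤ) - round ((a : ℝ) / q) * q| := by
    apply Int.one_le_abs
    intro h0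
    apply h
    have h3 : (a : ℤ) = round ((a : ℝ) / q) * q := by linarith
    exact Int.natCast_dvd_natCast.mp ⟨round ((a : ℝ) / q), by rw [h3]; ring⟩
  exact_mod_cast h2

/-- Every `q` coprime to `b` divides a short nonempty subset sum. -/
theorem discrete (b : ℕ) (hb : 1 ≤ b) (M B q : ℕ) (hB : 1 ≤ B) (hq : 1 ≤ q) (hqb : Nat.Coprime q b)
    (hqM : q < b ^ M)
    (hpar : 16 * b * B * M * rho b ^ B ≤ 1) (hHK : 4 * q ≤ 2 ^ (B * M)) :
    ∃ S ∈ (range (B * M)).powerset, S.Nonempty ∧ q ∣ R b S := by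
  have hq' : (0 : ℝ) < q := by exact_mod_cast hq
  have hgood : ∀ j < B, ∀ h : ℕ, 0 < h → h < q →
      1 < nd ((b : ℝ) ^ (j * M) * (h * (1 / (q : ℝ)))) * (b : ℝ) ^ M := by
    intro j _ h h0 h1
    have e1 : (b : ℝ) ^ (j * M) * (h * (1 / (q : ℝ))) = ((b ^ (j * M) * h : ℕ) : ℝ) / q := by
      push_cast; ring
    rw [e1]
    have hnd : ¬ q ∣ b ^ (j * M) * h := by
      intro hdvd
      have h2 : q ∣ h := (Nat.Coprime.pow_right (j * M) hqb).dvd_of_dvd_mul_left hdvd
      have := Nat.le_of_dvd h0 h2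
      omega
    have h2 := nd_div _ q hq hnd
    have h3 : (q : ℝ) < (b : ℝ) ^ M := by exact_mod_cast hqM
    have h4 : 0 < nd (((b ^ (j * M) * h : ℕ) : ℝ) / q) := by
      by_contra hcon
      have h5 := nd_nonneg (((b ^ (j * M) * h : ℕ) : ℝ) / q)
      have h6 : nd (((b ^ (j * M) * h : ℕ) : ℝ) / q) = 0 := le_antisymm (not_lt.mp hcon) h5
      rw [h6] at h2
      linarith
    nlinarith
  obtain ⟨S, hS, hne, hlarge⟩ := exists_large b (B * M) q (1 / (q : ℝ)) hq hHK
    (fourier_small b hb M B q hB (1 / (q : ℝ)) hgood hpar)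
  refine ⟨S, hS, hne, ?_⟩
  by_contra hnd
  have h2 := nd_div _ q hq hnd
  have h3 := four_nd_le ((R b S : ℝ) * (1 / (q : ℝ)))
  have e1 : (R b S : ℝ) * (1 / (q : ℝ)) = (R b S : ℝ) / q := by ring
  have h4 := D_mul q ((R b S : ℝ) * (1 / (q : ℝ)))
  have e2 : (q : ℝ) * ((R b S : ℝ) * (1 / (q : ℝ))) = ((R b S : ℕ) : ℝ) := by
    field_simp
  rw [e2, e_nat, sub_self] at h4
  have h5 : e ((R b S : ℝ) * (1 / (q : ℝ))) - 1 ≠ 0 := by
    intro h0
    rw [h0, norm_zero, e1] at h3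
    have h6 := nd_nonneg ((R b S : ℝ) / q)
    have h7 : nd ((R b S : ℝ) / q) = 0 := by linarith
    rw [h7] at h2
    linarith
  rcases mul_eq_zero.mp h4 with h6 | h6
  · rw [h6, norm_zero] at hlarge
    have : (0 : ℝ) < (q : ℝ) / 4 := by positivity
    norm_num at hlarge
    linarith
  · exact h5 h6

/-- Removing the common factors with `b`. -/
theorem coprime_part (b : ℕ) : ∀ h : ℕ, 1 ≤ h →
    ∃ q n : ℕ, 1 ≤ q ∧ Nat.Coprime q b ∧ q ≤ h ∧ h ∣ b ^ n * q ∧ 2 ^ n ≤ h := by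
  intro h
  induction h using Nat.strong_induction_on with
  | _ h ih =>
    intro hh
    by_cases hc : Nat.Coprime h b
    · exact ⟨h, 0, hh, hc, le_rfl, by simp, by simpa using hh⟩
    · set d := Nat.gcd h b with hd
      have hd1 : d ≠ 1 := hc
      have hd0 : 0 < d := Nat.gcd_pos_of_pos_left b hh
      have hd2 : 2 ≤ d := by omega
      obtain ⟨h', hh'⟩ : d ∣ h := Nat.gcd_dvd_left h b
      have hh'0 : 1 ≤ h' := by
        rcases Nat.eq_zero_or_pos h' with h0 | h0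
        · rw [h0] at hh'; omega
        · exact h0
      have hlt : h' < h := by nlinarith
      obtain ⟨q, n, hq1, hqc, hqh, hdvd, hpow⟩ := ih h' hlt hh'0
      refine ⟨q, n + 1, hq1, hqc, by omega, ?_, ?_⟩
      · have h5 : d ∣ b := Nat.gcd_dvd_right h b
        have h3 := mul_dvd_mul h5 hdvd
        have h4 : b ^ (n + 1) * q = b * (b ^ n * q) := by ring
        rw [h4]
        exact hh' ▸ h3
      · rw [pow_succ]
        nlinarith

/-! ### combination -/

theorem R_shift (b : ℕ) (S : Finset ℕ) (s : ℕ) :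
    R b (S.map (addRightEmbedding s)) = b ^ s * R b S := by
  unfold R
  rw [Finset.sum_map, Finset.mul_sum]
  refine Finset.sum_congr rfl fun k _ => ?_
  simp only [addRightEmbedding_apply]
  rw [pow_add, mul_comm]

theorem R_le (b : ℕ) (hb : 2 ≤ b) (L : ℕ) (S : Finset ℕ) (hS : S ⊆ range L) : R b S < b ^ L := by
  unfold R
  exact Nat.geomSum_lt hb (fun k hk => mem_range.mp (hS hk))

theorem R_pos (b : ℕ) (hb : 1 ≤ b) (S : Finset ℕ) (hS : S.Nonempty) : 1 ≤ R b S := by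
  unfold R
  obtain ⟨k, hk⟩ := hS
  calc 1 ≤ b ^ k := Nat.one_le_pow _ _ hb
    _ ≤ ∑ k ∈ S, b ^ k := Finset.single_le_sum (f := fun k => b ^ k) (fun _ _ => Nat.zero_le _) hk

theorem nd_nat_mul (c : ℕ) (x : ℝ) : nd (c * x) ≤ c * nd x := by
  have h1 := nd_le ((c : ℝ) * x) (c * round x)
  refine h1.trans (le_of_eq ?_)
  rw [nd]
  have : (c : ℝ) * x - ((c * round x : ℤ) : ℝ) = c * (x - round x) := by push_cast; ring
  rw [this, abs_mul, abs_of_nonneg (Nat.cast_nonneg c)]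

theorem step (b A l m : ℕ) (hb : 2 ≤ b) (hA : b + 2 ≤ A) (hl : 1 ≤ l) (hm : 1 ≤ m)
    (hpar : ∀ M : ℕ, M ≤ 2 ^ l → 16 * (b : ℝ) * (A * l : ℕ) * M * rho b ^ (A * l) ≤ 1)
    (hM : (b + 1) * m + A * l * (m + 1) ≤ 2 ^ l) (γ : ℝ) :
    ∃ S ⊆ range (A * l * ((b + 1) * m + A * l * (m + 1))), S.Nonempty ∧
      nd ((R b S : ℝ) * γ) ^ 2 * (b : ℝ) ^ m ≤ 1 := by
  set B := A * l with hB
  set L := B * (m + 1) with hL
  set M := (b + 1) * m + L with hMdef
  have hB1 : b + 2 ≤ B := by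
    calc b + 2 ≤ A := hA
      _ = A * 1 := (mul_one A).symm
      _ ≤ A * l := Nat.mul_le_mul_left A hl
  have hb1 : 1 ≤ b := by omega
  have hbm : b ^ m ≤ 2 ^ (b * m) := by
    rw [pow_mul]
    exact Nat.pow_le_pow_left Nat.lt_two_pow_self.le m
  have hbR : (1 : ℝ) ≤ b := by exact_mod_cast hb1
  have hb0 : (0 : ℝ) < b := by linarith
  by_cases hgood : ∀ j < B, ∀ h : ℕ, 0 < h → h < b ^ m →
      1 < nd ((b : ℝ) ^ (j * M) * (h * γ)) * (b : ℝ) ^ M
  · have hHK : 4 * b ^ m ≤ 2 ^ (B * M) := by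
      calc 4 * b ^ m ≤ 4 * 2 ^ (b * m) := Nat.mul_le_mul_left 4 hbm
        _ = 2 ^ (b * m + 2) := by rw [pow_add]; ring
        _ ≤ 2 ^ (B * M) := by
          apply Nat.pow_le_pow_right (by norm_num)
          have h1 : B * (m + 1) ≤ M := by rw [hMdef]; omega
          have h2 : b * m + 2 ≤ B * (m + 1) := by nlinarith
          have h3 : M ≤ B * M := Nat.le_mul_of_pos_left M (by omega)
          omega
    obtain ⟨S, hS, hne, hnd⟩ := good_case b hb1 M B (b ^ m) (by omega) (Nat.one_le_pow _ _ hb1) γ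
      hgood (by have := hpar M hM; exact_mod_cast this) hHK
    refine ⟨S, Finset.mem_powerset.mp hS, hne, ?_⟩
    push_cast at hnd
    exact hnd
  · push Not at hgood
    obtain ⟨j, hj, h, h0, hlt, hbad⟩ := hgood
    obtain ⟨q, n, hq1, hqc, hqh, hdvd, hpow⟩ := coprime_part b h h0
    have hn : n ≤ b * m := by
      have h1 : 2 ^ n ≤ 2 ^ (b * m) := hpow.trans (hlt.le.trans hbm)
      exact (Nat.pow_le_pow_iff_right (by norm_num)).mp h1
    have hq2 : q < b ^ (m + 1) := by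
      calc q ≤ h := hqh
        _ < b ^ m := hlt
        _ ≤ b ^ (m + 1) := Nat.pow_le_pow_right hb1 (by omega)
    have hHK : 4 * q ≤ 2 ^ (B * (m + 1)) := by
      calc 4 * q ≤ 4 * 2 ^ (b * m) := Nat.mul_le_mul_left 4 (hqh.trans (hlt.le.trans hbm))
        _ = 2 ^ (b * m + 2) := by rw [pow_add]; ring
        _ ≤ 2 ^ (B * (m + 1)) := by
          apply Nat.pow_le_pow_right (by norm_num)
          nlinarith
    have hm1 : m + 1 ≤ 2 ^ l := by
      have : m + 1 ≤ B * (m + 1) := Nat.le_mul_of_pos_left _ (by omega)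
      omega
    obtain ⟨S0, hS0, hne0, hq⟩ := discrete b hb1 (m + 1) B q (by omega) hq1 hqc hq2
      (by have := hpar (m + 1) hm1; exact_mod_cast this) hHK
    have hS0' := Finset.mem_powerset.mp hS0
    refine ⟨S0.map (addRightEmbedding (j * M + n)), ?_, hne0.map, ?_⟩
    · intro k hk
      rw [Finset.mem_map] at hk
      obtain ⟨k0, hk0, rfl⟩ := hk
      have h1 := mem_range.mp (hS0' hk0)
      rw [addRightEmbedding_apply, mem_range]
      have h2 : j * M ≤ (B - 1) * M := Nat.mul_le_mul_right M (by omega)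
      have h3 : (B - 1) * M + M = B * M := by
        have : B - 1 + 1 = B := by omega
        calc (B - 1) * M + M = (B - 1 + 1) * M := by ring
          _ = B * M := by rw [this]
      have h4 : n + L ≤ M := by
        rw [hMdef]
        nlinarith
      omega
    · rw [R_shift]
      obtain ⟨c, hc⟩ : h ∣ b ^ n * R b S0 := hdvd.trans (mul_dvd_mul_left _ hq)
      have hcle : c ≤ b ^ (b * m + L) := by
        have h1 : R b S0 < b ^ L := R_le b hb L S0 hS0'
        have h2 : c ≤ h * c := Nat.le_mul_of_pos_left c h0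
        calc c ≤ h * c := h2
          _ = b ^ n * R b S0 := hc.symm
          _ ≤ b ^ (b * m) * b ^ L :=
            Nat.mul_le_mul (Nat.pow_le_pow_right hb1 hn) h1.le
          _ = b ^ (b * m + L) := (pow_add _ _ _).symm
      have e1 : (((b ^ (j * M + n) * R b S0 : ℕ) : ℝ)) * γ = (c : ℝ) * ((b : ℝ) ^ (j * M) * (h * γ)) := by
        have e2 : ((b ^ n * R b S0 : ℕ) : ℝ) = ((h * c : ℕ) : ℝ) := by rw [hc]
        push_cast at e2 ⊢
        rw [pow_add]
        linear_combination ((b : ℝ) ^ (j * M) * γ) * e2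
      rw [e1]
      set x := (b : ℝ) ^ (j * M) * (h * γ) with hx
      have h5 := nd_nat_mul c x
      have h6 : (c : ℝ) ≤ (b : ℝ) ^ (b * m + L) := by exact_mod_cast hcle
      have h7 : nd (c * x) * (b : ℝ) ^ m ≤ 1 := by
        have h8 : (b : ℝ) ^ (b * m + L) * (b : ℝ) ^ m = (b : ℝ) ^ M := by
          rw [← pow_add]
          congr 1
          rw [hMdef]; ring
        calc nd (c * x) * (b : ℝ) ^ m ≤ (c * nd x) * (b : ℝ) ^ m :=
              mul_le_mul_of_nonneg_right h5 (by positivity)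
          _ ≤ ((b : ℝ) ^ (b * m + L) * nd x) * (b : ℝ) ^ m :=
              mul_le_mul_of_nonneg_right (mul_le_mul_of_nonneg_right h6 (nd_nonneg x))
                (by positivity)
          _ = nd x * (b : ℝ) ^ M := by rw [← h8]; ring
          _ ≤ 1 := hbad
      have h9 : nd (c * x) ≤ 1 := (nd_le_half _).trans (by norm_num)
      have h10 := nd_nonneg (c * x)
      have h11 : (0 : ℝ) < (b : ℝ) ^ m := by positivity
      calc nd (c * x) ^ 2 * (b : ℝ) ^ m = nd (c * x) * (nd (c * x) * (b : ℝ) ^ m) := by ring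
        _ ≤ 1 * 1 := mul_le_mul h9 h7 (by positivity) (by norm_num)
        _ = 1 := by norm_num

/-- existence of the constant `A` -/
theorem exists_A (b : ℕ) (hb : 1 ≤ b) : ∃ A : ℕ, b + 2 ≤ A ∧ ∀ l : ℕ, 1 ≤ l → ∀ M : ℕ,
    M ≤ 2 ^ l → 16 * (b : ℝ) * (A * l : ℕ) * M * rho b ^ (A * l) ≤ 1 := by
  have h0 := rho_nonneg b hb
  have h1 := rho_lt_one b hb
  have hbR : (1 : ℝ) ≤ b := by exact_mod_cast hb
  have ht := tendsto_self_mul_const_pow_of_lt_one h0 h1
  have hev : ∀ᶠ n : ℕ in Filter.atTop, (n : ℝ) * rho b ^ n < 1 / (64 * b) :=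
    ht.eventually (gt_mem_nhds (by positivity))
  obtain ⟨A, hA1, hA2⟩ := (hev.and (Filter.eventually_ge_atTop (b + 2))).exists
  refine ⟨A, hA2, ?_⟩
  intro l hl M hM
  have hA0 : (1 : ℝ) ≤ A := by
    have : 1 ≤ A := by omega
    exact_mod_cast this
  have hr0 : 0 ≤ rho b ^ A := by positivity
  have hr1 : rho b ^ A ≤ 1 / 8 := by
    have h3 : rho b ^ A ≤ A * rho b ^ A := by nlinarith
    have h4 : (1 : ℝ) / (64 * b) ≤ 1 / 8 := by
      apply one_div_le_one_div_of_le (by norm_num)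
      nlinarith
    linarith
  -- induction on l: l * (2 rho^A)^l ≤ 2 rho^A
  have hind : ∀ l : ℕ, 1 ≤ l → (l : ℝ) * (2 * rho b ^ A) ^ l ≤ 2 * rho b ^ A := by
    intro l hl
    induction l, hl using Nat.le_induction with
    | base => simp
    | succ n hn ih =>
      have hn1 : (1 : ℝ) ≤ n := by exact_mod_cast hn
      have h5 : ((n + 1 : ℕ) : ℝ) * (2 * rho b ^ A) ≤ n := by push_cast; nlinarith
      calc ((n + 1 : ℕ) : ℝ) * (2 * rho b ^ A) ^ (n + 1)
          = (((n + 1 : ℕ) : ℝ) * (2 * rho b ^ A)) * (2 * rho b ^ A) ^ n := by ring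
        _ ≤ n * (2 * rho b ^ A) ^ n := mul_le_mul_of_nonneg_right h5 (by positivity)
        _ ≤ 2 * rho b ^ A := ih
  have h6 := hind l hl
  have hM' : (M : ℝ) ≤ 2 ^ l := by exact_mod_cast hM
  calc 16 * (b : ℝ) * (A * l : ℕ) * M * rho b ^ (A * l)
      ≤ 16 * (b : ℝ) * (A * l : ℕ) * 2 ^ l * rho b ^ (A * l) := by
        apply mul_le_mul_of_nonneg_right _ (by positivity)
        exact mul_le_mul_of_nonneg_left hM' (by positivity)
    _ = 16 * b * A * (l * (2 * rho b ^ A) ^ l) := by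
        push_cast
        rw [pow_mul, mul_pow]
        ring
    _ ≤ 16 * b * A * (2 * rho b ^ A) := mul_le_mul_of_nonneg_left h6 (by positivity)
    _ = 32 * b * (A * rho b ^ A) := by ring
    _ ≤ 32 * b * (1 / (64 * b)) := mul_le_mul_of_nonneg_left hA1.le (by positivity)
    _ ≤ 1 := by
        have : 32 * (b : ℝ) * (1 / (64 * b)) = 1 / 2 := by field_simp; norm_num
        rw [this]; norm_num

end Pool.Agent.R764.DR
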